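import Mathlib
import Pool.Agent.Y827.RO.NarS
import Pool.Agent.H362R2.CM.Box

/-! Project HN: primes in many classes of linear forms along narrow progressions, one further form of each class
being composite everywhere. -/

set_option autoImplicit false

namespace Pool.Agent.Y827.HN

open Finset Filter Topology
open Pool.Agent.Y827.RO Pool.Agent.Y827.GS

open Classical in
/-- the number of the `l < n ≤ N` such that at `n, n + d, ..., n + (l-1) d` all forms of `A` are prime and no form of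
`B` is prime -/
noncomputable def cntX (A B : Finset (ℤ × ℤ)) (l d N : ℕ) : ℕ :=
  ((Icc (l + 1) N).filter (fun n : ℕ => ∀ j < l,
    (∀ f ∈ A, (f.1 * ((n + j * d : ℕ) : ℤ) + f.2).toNat.Prime) ∧
    ∀ f ∈ B, ¬ (f.1 * ((n + j * d : ℕ) : ℤ) + f.2).toNat.Prime)).card

/-- many narrow progressions -/
def QX (l C N : ℕ) (A B : Finset (ℤ × ℤ)) : Prop :=
  ∃ d : ℕ, 1 ≤ d ∧ (d : ℝ) ≤ (Real.log N) ^ C ∧ (N : ℝ) / (Real.log N) ^ C ≤ (cntX A B l d N : ℝ)

theorem QX_anti {l C N : ℕ} {A A' B B' : Finset (ℤ × ℤ)} (hA : A' ⊆ A) (hB : B' ⊆ B) (h : QX l C N A B) :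
    QX l C N A' B' := by
  classical
  obtain ⟨d, h1, h2, h3⟩ := h
  refine ⟨d, h1, h2, h3.trans ?_⟩
  rw [Nat.cast_le]
  unfold cntX
  apply card_le_card
  intro n hn
  rw [mem_filter] at hn ⊢
  exact ⟨hn.1, fun j hj => ⟨fun f hf => (hn.2 j hj).1 f (hA hf), fun f hf => (hn.2 j hj).2 f (hB hf)⟩⟩

theorem QX_mono {l C C' N : ℕ} {A B : Finset (ℤ × ℤ)} (hN : 3 ≤ N) (hC : C ≤ C') (h : QX l C N A B) :
    QX l C' N A B := by
  obtain ⟨d, h1, h2, h3⟩ := h
  have hl := log_ge_one hN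
  have h4 : Real.log N ^ C ≤ Real.log N ^ C' := pow_le_pow_right₀ hl hC
  exact ⟨d, h1, h2.trans h4, (div_le_div_of_nonneg_left (Nat.cast_nonneg _) (by positivity) h4).trans h3⟩

theorem QX_len {l l' C N : ℕ} {A B : Finset (ℤ × ℤ)} (hl : l ≤ l') (h : QX l' C N A B) : QX l C N A B := by
  classical
  obtain ⟨d, h1, h2, h3⟩ := h
  refine ⟨d, h1, h2, h3.trans ?_⟩
  rw [Nat.cast_le]
  unfold cntX
  apply card_le_card
  intro n hn
  rw [mem_filter, mem_Icc] at hn ⊢
  exact ⟨⟨by omega, hn.1.2⟩, fun j hj => hn.2 j (lt_of_lt_of_le hj hl)⟩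

theorem det_ne {f f' : ℤ × ℤ} (hf : 0 < f.1 ∧ IsCoprime f.1 f.2) (hf' : 0 < f'.1 ∧ IsCoprime f'.1 f'.2)
    (hne : f ≠ f') : f.1 * f'.2 - f'.1 * f.2 ≠ 0 := by
  intro h
  have e : f.1 * f'.2 = f'.1 * f.2 := by linarith
  have h1 : f.1 ∣ f'.1 := hf.2.dvd_of_dvd_mul_right (Dvd.intro _ e)
  have h2 : f'.1 ∣ f.1 := hf'.2.dvd_of_dvd_mul_right (Dvd.intro _ e.symm)
  have h3 : f.1 = f'.1 := Int.dvd_antisymm hf.1.le hf'.1.le h1 h2
  rw [h3] at e
  have h4 := mul_left_cancel₀ hf'.1.ne' e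
  exact hne (Prod.ext h3 h4.symm)

/-- a root modulo a prime -/
theorem root_mod {a b : ℤ} {p : ℕ} (hp : p.Prime) (hpa : ¬ (p : ℤ) ∣ a) :
    ∃ c : ℕ, (p : ℤ) ∣ a * c + b := by
  have hcop : IsCoprime a (p : ℤ) := by
    have := (Nat.prime_iff_prime_int.1 hp).coprime_iff_not_dvd.2 hpa
    exact this.symm
  obtain ⟨u, v, huv⟩ := hcop
  have hp0 : (0 : ℤ) < p := by exact_mod_cast hp.pos
  refine ⟨((-(b * u)) % p).toNat, ?_⟩
  rw [Int.toNat_of_nonneg (Int.emod_nonneg _ hp0.ne')]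
  have h1 := Int.emod_add_mul_ediv (-(b * u)) p
  have e : a * (-(b * u) % (p : ℤ)) + b = p * (v * b - a * (-(b * u) / p)) := by
    linear_combination a * h1 - b * huv
  rw [e]
  exact dvd_mul_right _ _

theorem forced {T K M : ℕ} {ι : Type} [Fintype ι]
    (hK : ∀ H : Fin T → Fin K → ℤ × ℤ, Function.Injective (fun x : Fin T × Fin K => H x.1 x.2) →
      (∀ g i, 0 < (H g i).1 ∧ IsCoprime (H g i).1 (H g i).2) →
      (∀ p : ℕ, p.Prime → p ≤ T * K → ∃ r : ℤ, ∀ g i, ¬ (p : ℤ) ∣ (H g i).1 * r + (H g i).2) →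
      ∀ l : ℕ, ∃ C : ℕ, ∀ᶠ N : ℕ in atTop, ∃ (S : Finset (Fin T)) (σ : Fin T → Fin K),
        M + 1 ≤ S.card ∧ QN l C N (S.image (fun g => H g (σ g))))
    (H : Fin T → Fin K → ℤ × ℤ) (X : ι → ℤ × ℤ)
    (hinj : Function.Injective (fun x : Fin T × Fin K => H x.1 x.2))
    (hXH : ∀ g g' i, X g ≠ H g' i)
    (hpos : ∀ g i, 0 < (H g i).1 ∧ IsCoprime (H g i).1 (H g i).2)
    (hposX : ∀ g, 0 < (X g).1 ∧ IsCoprime (X g).1 (X g).2)
    (hloc : ∀ p : ℕ, p.Prime → p ≤ T * K → ∃ r : ℤ, ∀ g i, ¬ (p : ℤ) ∣ (H g i).1 * r + (H g i).2) (l : ℕ) :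
    ∃ C : ℕ, ∀ᶠ N : ℕ in atTop, ∃ (S : Finset (Fin T)) (σ : Fin T → Fin K),
      M + 1 ≤ S.card ∧ QX l C N (S.image (fun g => H g (σ g))) (univ.image X) := by
  classical
  -- the bound
  set det : ι × Fin T × Fin K → ℤ := fun y =>
    (X y.1).1 * (H y.2.1 y.2.2).2 - (H y.2.1 y.2.2).1 * (X y.1).2 with hdet
  obtain ⟨B₀, hB₀⟩ : ∃ B₀ : ℕ, B₀ = T * K + ∑ g, (X g).1.natAbs + ∑ y, (det y).natAbs := ⟨_, rfl⟩
  have hB1 : ∀ g, (X g).1.natAbs ≤ B₀ := by
    intro g
    have := single_le_sum (f := fun g => (X g).1.natAbs) (fun _ _ => Nat.zero_le _) (mem_univ g)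
    omega
  have hB2 : ∀ y, (det y).natAbs ≤ B₀ := by
    intro y
    have := single_le_sum (f := fun y => (det y).natAbs) (fun _ _ => Nat.zero_le _) (mem_univ y)
    omega
  set e₀ := Fintype.equivFin ι with he₀
  set p : ι → ℕ := fun g => Nat.nth Nat.Prime (B₀ + (e₀ g : ℕ)) with hp
  have hpp : ∀ g, (p g).Prime := fun g => Nat.prime_nth_prime _
  have hpB : ∀ g, B₀ < p g := fun g => by
    have := Nat.add_two_le_nth_prime (B₀ + (e₀ g : ℕ))
    simp only [hp]
    omega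
  have hpinj : Function.Injective p := by
    intro s t hst
    have := Nat.nth_injective Nat.infinite_setOfPred_prime hst
    apply e₀.injective
    apply Fin.ext
    omega
  have hnd : ∀ (g : ι) (x : ℤ), x ≠ 0 → x.natAbs ≤ B₀ → ¬ (p g : ℤ) ∣ x := by
    intro g x hx hxB hd
    have h1 := Int.natCast_dvd.1 hd
    have h2 := Nat.le_of_dvd (Int.natAbs_pos.2 hx) h1
    have h3 := hpB g
    omega
  have hroot : ∀ g, ∃ c : ℕ, (p g : ℤ) ∣ (X g).1 * c + (X g).2 := fun g =>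
    root_mod (hpp g) (hnd g _ (hposX g).1.ne' (hB1 g))
  choose c hc using hroot
  have hpair : Set.Pairwise ((univ : Finset ι) : Set ι) (Function.onFun Nat.Coprime p) := by
    intro s _ t _ hst
    exact (Nat.coprime_primes (hpp s) (hpp t)).2 fun h => hst (hpinj h)
  obtain ⟨r₀, hr₀⟩ := Nat.chineseRemainderOfFinset c p univ (fun t _ => (hpp t).ne_zero) hpair
  set Q : ℕ := ∏ g, p g with hQ
  have hQ0 : 0 < Q := prod_pos fun g _ => (hpp g).pos
  have hpQ : ∀ g, p g ∣ Q := fun g => dvd_prod_of_mem p (mem_univ g)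
  obtain ⟨B₁, hB₁⟩ : ∃ B₁ : ℕ, B₁ = ∑ g, (p g + (X g).2.natAbs) + 1 + l := ⟨_, rfl⟩
  have hB₁1 : l + 1 ≤ B₁ := by omega
  have hB₁g : ∀ g, p g + (X g).2.natAbs + 1 ≤ B₁ := by
    intro g
    have := single_le_sum (f := fun g => p g + (X g).2.natAbs) (fun _ _ => Nat.zero_le _) (mem_univ g)
    omega
  obtain ⟨r, hr⟩ : ∃ r, r = r₀ + Q * B₁ := ⟨_, rfl⟩
  have hrB : B₁ ≤ r := by
    have : 1 * B₁ ≤ Q * B₁ := Nat.mul_le_mul_right _ hQ0
    omega
  have hrc : ∀ g, (p g : ℤ) ∣ (X g).1 * r + (X g).2 := by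
    intro g
    have h1 : r₀ ≡ c g [MOD p g] := hr₀ g (mem_univ g)
    have h2 : r ≡ c g [MOD p g] := by
      rw [hr]
      have h3 : Q * B₁ ≡ 0 [MOD p g] := (Nat.modEq_zero_iff_dvd).2 ((hpQ g).mul_right _)
      simpa using h1.add h3
    have h4 : (p g : ℤ) ∣ (r : ℤ) - c g := by
      have := (Nat.modEq_iff_dvd.1 h2.symm)
      exact this
    have e : (X g).1 * (r : ℤ) + (X g).2 = ((X g).1 * c g + (X g).2) + (X g).1 * (r - c g) := by ring
    rw [e]
    exact dvd_add (hc g) (h4.mul_left _)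
  -- the new forms
  set H' : Fin T → Fin K → ℤ × ℤ := fun g i => ((H g i).1 * Q, (H g i).1 * r + (H g i).2) with hH'
  have hQz : (0 : ℤ) < Q := by exact_mod_cast hQ0
  have hinj' : Function.Injective (fun x : Fin T × Fin K => H' x.1 x.2) := by
    intro x y hxy
    apply hinj
    have h1 : (H x.1 x.2).1 * (Q : ℤ) = (H y.1 y.2).1 * Q := congrArg Prod.fst hxy
    have h2 : (H x.1 x.2).1 * (r : ℤ) + (H x.1 x.2).2 = (H y.1 y.2).1 * r + (H y.1 y.2).2 :=
      congrArg Prod.snd hxy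
    have h3 := mul_right_cancel₀ hQz.ne' h1
    rw [h3] at h2
    exact Prod.ext h3 (add_left_cancel h2)
  have hpos' : ∀ g i, 0 < (H' g i).1 ∧ IsCoprime (H' g i).1 (H' g i).2 := by
    intro g i
    refine ⟨mul_pos (hpos g i).1 hQz, ?_⟩
    show IsCoprime ((H g i).1 * (Q : ℤ)) ((H g i).1 * r + (H g i).2)
    apply IsCoprime.mul_left
    · have h1 := (hpos g i).2
      have h2 : IsCoprime (H g i).1 ((H g i).2 + (H g i).1 * r) := IsCoprime.add_mul_left_right h1 _
      rwa [add_comm] at h2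
    · rw [hQ]
      push_cast
      apply IsCoprime.prod_left
      intro g' _
      rw [(Nat.prime_iff_prime_int.1 (hpp g')).coprime_iff_not_dvd]
      intro hd
      have h1 : (p g' : ℤ) ∣ det (g', g, i) := by
        have e : det (g', g, i) = (X g').1 * ((H g i).1 * r + (H g i).2) -
            (H g i).1 * ((X g').1 * r + (X g').2) := by
          simp only [hdet]
          ring
        rw [e]
        exact dvd_sub (hd.mul_left _) ((hrc g').mul_left _)
      exact hnd g' _ (det_ne (hposX g') (hpos g i) (hXH g' g i)) (hB2 (g', g, i)) h1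
  have hloc' : ∀ q : ℕ, q.Prime → q ≤ T * K → ∃ m : ℤ, ∀ g i, ¬ (q : ℤ) ∣ (H' g i).1 * m + (H' g i).2 := by
    intro q hq hqT
    obtain ⟨r₁, hr₁⟩ := hloc q hq hqT
    have hqQ : ¬ q ∣ Q := by
      intro hd
      obtain ⟨g, -, hg⟩ := (hq.prime.dvd_finsetProd_iff _).1 hd
      have h1 : q = p g := (Nat.prime_dvd_prime_iff_eq hq (hpp g)).1 hg
      have h2 := hpB g
      omega
    have hcop : IsCoprime (Q : ℤ) (q : ℤ) := by
      rw [Nat.isCoprime_iff_coprime]
      exact ((Nat.Prime.coprime_iff_not_dvd hq).2 hqQ).symm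
    obtain ⟨u, v, huv⟩ := hcop
    refine ⟨u * (r₁ - r), fun g i hd => hr₁ g i ?_⟩
    have e : (H g i).1 * r₁ + (H g i).2 = ((H' g i).1 * (u * (r₁ - r)) + (H' g i).2) +
        q * (v * (H g i).1 * (r₁ - r)) := by
      simp only [hH']
      linear_combination (-((H g i).1 * (r₁ - (r : ℤ)))) * huv
    rw [e]
    exact dvd_add hd (dvd_mul_right _ _)
  obtain ⟨C, hC⟩ := hK H' hinj' hpos' hloc' l
  refine ⟨C + 1, ?_⟩
  have ht : Tendsto (fun N : ℕ => (N - r) / Q) atTop atTop := by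
    rw [tendsto_atTop_atTop]
    intro b
    refine ⟨Q * b + r, fun N hN => ?_⟩
    rw [Nat.le_div_iff_mul_le hQ0]
    have : b * Q = Q * b := mul_comm _ _
    omega
  filter_upwards [ht.eventually hC, ht.eventually (eventually_ge_atTop 3), log_ev (2 * Q),
    eventually_ge_atTop (2 * (r + Q))] with N hN hN3 hNl hNr
  obtain ⟨S, σ, hS, d, hd1, hd2, hd3⟩ := hN
  obtain ⟨N', hN'⟩ : ∃ N', N' = (N - r) / Q := ⟨_, rfl⟩
  rw [← hN'] at hd2 hd3 hN3
  have hQN : Q * N' ≤ N - r := by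
    rw [hN']
    exact Nat.mul_div_le _ _
  have hQN2 : N - r < Q * N' + Q := by
    rw [hN']
    have := Nat.lt_mul_div_succ (N - r) hQ0
    rw [Nat.mul_add, Nat.mul_one] at this
    exact this
  have hN2 : N ≤ 2 * (Q * N') := by omega
  have hN'N : N' ≤ N := by
    have : 1 * N' ≤ Q * N' := Nat.mul_le_mul_right _ hQ0
    omega
  have hL1 := log_ge_one hN3
  have hN'0 : (0 : ℝ) < N' := by exact_mod_cast (by omega : 0 < N')
  have hll : Real.log N' ≤ Real.log N := Real.log_le_log hN'0 (by exact_mod_cast hN'N)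
  have hLN : 1 ≤ Real.log N := hL1.trans hll
  have hQ1 : (1 : ℝ) ≤ Q := by exact_mod_cast hQ0
  refine ⟨S, σ, hS, Q * d, Nat.mul_pos hQ0 hd1, ?_, ?_⟩
  · push_cast
    have h1 : (d : ℝ) ≤ Real.log N ^ C := hd2.trans (pow_le_pow_left₀ (by linarith) hll C)
    rw [pow_succ, mul_comm]
    exact mul_le_mul h1 (by linarith) (by linarith) (by positivity)
  · have h1 : (N : ℝ) / Real.log N ^ (C + 1) ≤ (N' : ℝ) / Real.log N' ^ C := by
      have h2 : (N : ℝ) ≤ Real.log N * N' := by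
        have h3 : (N : ℝ) ≤ 2 * (Q * N') := by exact_mod_cast hN2
        nlinarith
      calc (N : ℝ) / Real.log N ^ (C + 1) ≤ (Real.log N * N') / Real.log N ^ (C + 1) := by gcongr
        _ = (N' : ℝ) / Real.log N ^ C := by
            rw [pow_succ]
            field_simp
        _ ≤ (N' : ℝ) / Real.log N' ^ C :=
            div_le_div_of_nonneg_left hN'0.le (by positivity) (pow_le_pow_left₀ (by linarith) hll C)
    refine h1.trans (hd3.trans ?_)
    rw [Nat.cast_le]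
    unfold cntA cntX
    rw [← card_image_of_injective (f := fun m : ℕ => Q * m + r) _ (by
      intro m m' hm
      have h2 : Q * m + r = Q * m' + r := hm
      exact Nat.eq_of_mul_eq_mul_left hQ0 (by omega))]
    apply card_le_card
    intro n hn
    obtain ⟨m, hm, rfl⟩ := mem_image.1 hn
    obtain ⟨hm1, hm2⟩ := mem_filter.1 hm
    rw [mem_Icc] at hm1
    refine mem_filter.2 ⟨mem_Icc.2 ⟨?_, ?_⟩, fun j hj => ⟨fun f hf => ?_, fun f hf hpr => ?_⟩⟩
    · have : 1 * 1 ≤ Q * m := Nat.mul_le_mul hQ0 hm1.1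
      omega
    · have : Q * m ≤ Q * N' := Nat.mul_le_mul_left _ hm1.2
      omega
    · obtain ⟨g, hg, rfl⟩ := mem_image.1 hf
      have h2 := hm2 j hj (H' g (σ g)) (mem_image.2 ⟨g, hg, rfl⟩)
      have e : (H' g (σ g)).1 * ((m + j * d : ℕ) : ℤ) + (H' g (σ g)).2 =
          (H g (σ g)).1 * ((Q * m + r + j * (Q * d) : ℕ) : ℤ) + (H g (σ g)).2 := by
        simp only [hH']
        push_cast
        ring
      rwa [e] at h2
    · obtain ⟨g, -, rfl⟩ := mem_image.1 hf
      -- the value is a proper multiple of `p g`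
      obtain ⟨n, hnd⟩ : ∃ n : ℕ, n = Q * m + r + j * (Q * d) := ⟨_, rfl⟩
      rw [← hnd] at hpr
      have hdv : (p g : ℤ) ∣ (X g).1 * (n : ℤ) + (X g).2 := by
        have e : (X g).1 * (n : ℤ) + (X g).2 = ((X g).1 * r + (X g).2) +
            Q * ((X g).1 * (m + j * d)) := by
          rw [hnd]
          push_cast
          ring
        rw [e]
        refine dvd_add (hrc g) (Dvd.dvd.mul_right ?_ _)
        exact_mod_cast hpQ g
      have hge : (p g : ℤ) < (X g).1 * (n : ℤ) + (X g).2 := by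
        have h3 : (r : ℤ) ≤ n := by
          rw [hnd]
          push_cast
          have : (0 : ℤ) ≤ Q * m := by positivity
          have : (0 : ℤ) ≤ j * (Q * d) := by positivity
          linarith
        have h4 : (n : ℤ) ≤ (X g).1 * n := by
          have := (hposX g).1
          have h0 : (0 : ℤ) ≤ n := Nat.cast_nonneg _
          nlinarith
        have h5 := hB₁g g
        have h6 : -((X g).2.natAbs : ℤ) ≤ (X g).2 := by
          rw [Int.natCast_natAbs]
          exact neg_abs_le _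
        have h7 : ((p g + (X g).2.natAbs + 1 : ℕ) : ℤ) ≤ r := by exact_mod_cast h5.trans hrB
        push_cast at h7
        rw [Int.natCast_natAbs] at h6
        linarith
      have hv : (((X g).1 * (n : ℤ) + (X g).2).toNat : ℤ) = (X g).1 * (n : ℤ) + (X g).2 :=
        Int.toNat_of_nonneg (by have := (Nat.cast_nonneg (p g) : (0 : ℤ) ≤ p g); linarith)
      have h8 : p g ∣ ((X g).1 * (n : ℤ) + (X g).2).toNat := by
        have : (p g : ℤ) ∣ (((X g).1 * (n : ℤ) + (X g).2).toNat : ℤ) := by rw [hv]; exact hdv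
        exact_mod_cast this
      have h9 := (Nat.prime_dvd_prime_iff_eq (hpp g) hpr).1 h8
      have h10 : (p g : ℤ) = (X g).1 * (n : ℤ) + (X g).2 := by rw [← hv, ← h9]
      linarith

end Pool.Agent.Y827.HN
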