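import Mathlib
import Pool.Agent.Y827.HN.Forced

/-! Project HN: all patterns of prime and composite values along narrow progressions for the proportion
`(5/18)^k` of the tuples. -/

set_option autoImplicit false

namespace Pool.Agent.Y827.HN

open Finset Filter Topology
open Pool.Agent.W25.QL
open Pool.Agent.Y827.LS
open Pool.Agent.Y827.GS
open Pool.Agent.Y827.RO

open Classical in
/-- all patterns on the set `F`, the forms of `U` being composite -/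
def AllP (U : Finset (ℤ × ℤ)) (l C N : ℕ) (F : Finset (ℤ × ℤ)) : Prop :=
  ∀ A, A ⊆ F → QX l C N A ((F \ A) ∪ U)

theorem AllP_anti {U : Finset (ℤ × ℤ)} {l C N : ℕ} {F F' : Finset (ℤ × ℤ)} (h : F' ⊆ F)
    (hF : AllP U l C N F) : AllP U l C N F' := by
  classical
  intro A hA
  exact QX_anti (Subset.refl A) (union_subset_union (sdiff_subset_sdiff h (Subset.refl A)) (Subset.refl U))
    (hF A (hA.trans h))

theorem AllP_mono {U : Finset (ℤ × ℤ)} {l C C' N : ℕ} {F : Finset (ℤ × ℤ)} (hN : 3 ≤ N) (hC : C ≤ C')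
    (h : AllP U l C N F) : AllP U l C' N F := fun A hA => QX_mono hN hC (h A hA)

theorem AllP_len {U U' : Finset (ℤ × ℤ)} {l l' C N : ℕ} {F : Finset (ℤ × ℤ)} (hU : U ⊆ U') (hl : l ≤ l')
    (h : AllP U' l' C N F) : AllP U l C N F := by
  classical
  exact fun A hA => QX_len hl (QX_anti (Subset.refl A) (union_subset_union (Subset.refl _) hU) (h A hA))

/-- the coloured theorem with all patterns -/
theorem patR (T M : ℕ) (hT : 1 ≤ T) (hTM : (18 / 5 : ℝ) * M < T) : ∃ K' : ℕ, 1 ≤ K' ∧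
    ∀ H : Fin T → Fin K' → ℤ × ℤ, Function.Injective (fun x : Fin T × Fin K' => H x.1 x.2) →
    (∀ g i, 0 < (H g i).1 ∧ IsCoprime (H g i).1 (H g i).2) →
    (∀ p : ℕ, p.Prime → p ≤ T * K' → ∃ r : ℤ, ∀ g i, ¬ (p : ℤ) ∣ (H g i).1 * r + (H g i).2) →
    ∀ U : Finset (ℤ × ℤ), (∀ u ∈ U, 0 < u.1 ∧ IsCoprime u.1 u.2 ∧ ∀ g i, u ≠ H g i) →
    ∀ l : ℕ, ∃ C : ℕ, ∀ᶠ N : ℕ in atTop, ∃ (S : Finset (Fin T)) (cc : Fin T → Fin K'),
      M + 1 ≤ S.card ∧ AllP U l C N (S.image (fun g => H g (cc g))) := by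
  classical
  obtain ⟨K, hK, hnar⟩ := narR T M hT hTM
  obtain ⟨N0, hN0⟩ := Pool.Agent.H362R2.CM.box_lemma T (K + 1) (1 / (2 : ℝ) ^ (2 ^ T)) (by positivity)
  obtain ⟨K', hK'⟩ : ∃ K', K' = max N0 (K + 1) := ⟨_, rfl⟩
  have hKK' : K + 1 ≤ K' := by omega
  have hN0K' : N0 ≤ K' := by omega
  refine ⟨K', by omega, fun H hinj hpos hloc U hU l => ?_⟩
  have hinj1 : ∀ g g' i i', H g i = H g' i' → g = g' ∧ i = i' := by
    intro g g' i i' h
    have := hinj (a₁ := (g, i)) (a₂ := (g', i')) h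
    exact ⟨congrArg Prod.fst this, congrArg Prod.snd this⟩
  have hfor : ∀ A : Fin T → Fin (K + 1) → Fin K', ∃ C : ℕ, ∀ᶠ N : ℕ in atTop,
      (∀ g, Function.Injective (A g)) → ∃ (S : Finset (Fin T)) (σ : Fin T → Fin K),
        M + 1 ≤ S.card ∧ QX l C N (S.image (fun g => H g (A g (Fin.castSucc (σ g)))))
          (univ.image (fun g => H g (A g (Fin.last K))) ∪ U) := by
    intro A
    by_cases hA : ∀ g, Function.Injective (A g)
    swap
    · exact ⟨0, Eventually.of_forall fun N h => absurd h hA⟩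
    obtain ⟨C, hC⟩ := forced hnar (fun g i => H g (A g (Fin.castSucc i)))
      (Sum.elim (fun g : Fin T => H g (A g (Fin.last K))) (fun u : U => (u : ℤ × ℤ)))
      (fun x y hxy => by
        obtain ⟨h1, h2⟩ := hinj1 _ _ _ _ hxy
        have h3 : A x.1 (Fin.castSucc x.2) = A x.1 (Fin.castSucc y.2) := by
          rw [h2, h1]
        exact Prod.ext h1 (Fin.castSucc_injective _ (hA _ h3)))
      (fun y g' i h => by
        cases y with
        | inl g =>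
          obtain ⟨h1, h2⟩ := hinj1 _ _ _ _ h
          subst h1
          exact (Fin.castSucc_lt_last i).ne' (hA _ h2)
        | inr u => exact (hU u u.2).2.2 _ _ h)
      (fun g i => hpos _ _) (fun y => by
        cases y with
        | inl g => exact hpos _ _
        | inr u => exact ⟨(hU u u.2).1, (hU u u.2).2.1⟩)
      (fun p hp hpT => by
        obtain ⟨r, hr⟩ := hloc p hp (hpT.trans (Nat.mul_le_mul_left _ (by omega)))
        exact ⟨r, fun g i => hr _ _⟩) l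
    refine ⟨C, ?_⟩
    filter_upwards [hC] with N hN _
    obtain ⟨S, σ, h1, h2⟩ := hN
    refine ⟨S, σ, h1, QX_anti (Subset.refl _) ?_ h2⟩
    intro f hf
    rcases mem_union.1 hf with hf | hf
    · obtain ⟨g, -, rfl⟩ := mem_image.1 hf
      exact mem_image.2 ⟨Sum.inl g, mem_univ _, rfl⟩
    · exact mem_image.2 ⟨Sum.inr ⟨f, hf⟩, mem_univ _, rfl⟩
  choose CC hCC using hfor
  set C : ℕ := ∑ A : Fin T → Fin (K + 1) → Fin K', CC A with hCdef
  have hCle : ∀ A, CC A ≤ C := fun A => single_le_sum (f := CC) (fun _ _ => Nat.zero_le _) (mem_univ A)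
  refine ⟨C, ?_⟩
  filter_upwards [eventually_all.2 hCC, eventually_ge_atTop 3] with N hN hN3
  -- the colouring
  set col : (Fin T → Fin K') → Finset (Finset (Fin T)) := fun φ =>
    univ.filter (fun S' => QX l C N (S'.image (fun g => H g (φ g)))
      ((univ \ S').image (fun g => H g (φ g)) ∪ U)) with hcol
  obtain ⟨c, -, hc⟩ := Finset.exists_le_card_fiber_of_nsmul_le_card_of_maps_to
    (s := (univ : Finset (Fin T → Fin K'))) (t := (univ : Finset (Finset (Finset (Fin T)))))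
    (f := col) (fun _ _ => mem_univ _) ⟨∅, mem_univ _⟩
    (b := 1 / (2 : ℝ) ^ (2 ^ T) * (K' : ℝ) ^ T) (by
      rw [nsmul_eq_mul, card_univ, card_univ, Fintype.card_finset, Fintype.card_finset, Fintype.card_fin,
        Fintype.card_fun, Fintype.card_fin, Fintype.card_fin]
      push_cast
      rw [← mul_assoc, mul_one_div, div_self (by positivity), one_mul])
  obtain ⟨A, hA1, hA2⟩ := hN0 (Fin K') (fun _ => univ) (fun _ => by rw [card_univ, Fintype.card_fin]; exact hN0K')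
    ((univ : Finset (Fin T → Fin K')).filter (fun φ => col φ = c))
    (fun φ _ => Fintype.mem_piFinset.2 fun _ => mem_univ _)
    (by
      rw [prod_const, card_univ, card_univ, Fintype.card_fin, Fintype.card_fin]
      exact hc)
  have hA3 : ∀ cc : Fin T → Fin (K + 1), col (fun i => A i (cc i)) = c := fun cc => (mem_filter.1 (hA2 cc)).2
  obtain ⟨S, σ, hS, hQ⟩ := hN A hA1
  have hQ' := QX_mono hN3 (hCle A) hQ
  -- the patterns
  have hmem : ∀ S', S' ⊆ S → S' ∈ c := by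
    intro S' hS'
    rw [← hA3 (fun g => if g ∈ S' then Fin.castSucc (σ g) else Fin.last K), hcol]
    refine mem_filter.2 ⟨mem_univ _, QX_anti ?_ ?_ hQ'⟩
    · intro f hf
      obtain ⟨g, hg, rfl⟩ := mem_image.1 hf
      refine mem_image.2 ⟨g, hS' hg, ?_⟩
      simp only [if_pos hg]
    · intro f hf
      rcases mem_union.1 hf with hf | hf
      · obtain ⟨g, hg, rfl⟩ := mem_image.1 hf
        refine mem_union_left _ (mem_image.2 ⟨g, mem_univ _, ?_⟩)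
        have : g ∉ S' := (mem_sdiff.1 hg).2
        simp only [if_neg this]
      · exact mem_union_right _ hf
  refine ⟨S, fun g => A g (Fin.castSucc (σ g)), hS, fun B hB => ?_⟩
  have h1 : S.filter (fun g => H g (A g (Fin.castSucc (σ g))) ∈ B) ∈ c := hmem _ (filter_subset _ _)
  rw [← hA3 (fun g => Fin.castSucc (σ g)), hcol, mem_filter] at h1
  refine QX_anti ?_ ?_ h1.2
  · intro f hf
    obtain ⟨g, hg, hgf⟩ := mem_image.1 (hB hf)
    refine mem_image.2 ⟨g, mem_filter.2 ⟨hg, ?_⟩, hgf⟩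
    rw [hgf]
    exact hf
  · intro f hf
    rcases mem_union.1 hf with hf | hf
    · obtain ⟨hf1, hf2⟩ := mem_sdiff.1 hf
      obtain ⟨g, hg, hgf⟩ := mem_image.1 hf1
      refine mem_union_left _ (mem_image.2 ⟨g, mem_sdiff.2 ⟨mem_univ _, fun h => hf2 ?_⟩, hgf⟩)
      rw [← hgf]
      exact (mem_filter.1 h).2
    · exact mem_union_right _ hf

theorem patRD (T : ℕ) : ∃ K : ℕ, 1 ≤ K ∧ (1 ≤ T → ∀ H : Fin T → Fin K → ℤ × ℤ,
    Function.Injective (fun x : Fin T × Fin K => H x.1 x.2) →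
    (∀ g i, 0 < (H g i).1 ∧ IsCoprime (H g i).1 (H g i).2) →
    (∀ p : ℕ, p.Prime → p ≤ T * K → ∃ r : ℤ, ∀ g i, ¬ (p : ℤ) ∣ (H g i).1 * r + (H g i).2) →
    ∀ U : Finset (ℤ × ℤ), (∀ u ∈ U, 0 < u.1 ∧ IsCoprime u.1 u.2 ∧ ∀ g i, u ≠ H g i) →
    ∀ l : ℕ, ∃ C : ℕ, ∀ᶠ N : ℕ in atTop, ∃ (S : Finset (Fin T)) (c : Fin T → Fin K),
      (T : ℝ) ≤ (18 / 5) * (S.card : ℝ) ∧ AllP U l C N (S.image (fun g => H g (c g)))) := by
  rcases Nat.eq_zero_or_pos T with rfl | hT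
  · exact ⟨1, le_rfl, fun h => absurd h (by norm_num)⟩
  obtain ⟨M, hM1, hM2⟩ := ceilM T hT
  obtain ⟨K, hK, h⟩ := patR T M hT hM1
  refine ⟨K, hK, fun _ H hinj hpos hloc U hU l => ?_⟩
  obtain ⟨C, hC⟩ := h H hinj hpos hloc U hU l
  refine ⟨C, ?_⟩
  filter_upwards [hC] with N hN
  obtain ⟨S, c, hS, hc⟩ := hN
  refine ⟨S, c, hM2.trans (mul_le_mul_of_nonneg_left ?_ (by norm_num)), hc⟩
  exact_mod_cast hS

open Classical in
/-- the tuples of distinct forms in `V` with all patterns -/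
noncomputable def PhiX (k : ℕ) (V U : Finset (ℤ × ℤ)) (l C N : ℕ) : Finset (Fin (k + 1) → ℤ × ℤ) :=
  (Fintype.piFinset (fun _ : Fin (k + 1) => V)).filter (fun f => Function.Injective f ∧
    AllP U l C N (univ.image f))

open Classical in
theorem PhiX_mem {k : ℕ} {V U : Finset (ℤ × ℤ)} {l C N : ℕ} {f : Fin (k + 1) → ℤ × ℤ}
    (h : f ∈ PhiX k V U l C N) : (∀ i, f i ∈ V) ∧ Function.Injective f ∧
      AllP U l C N (univ.image f) := by
  unfold PhiX at h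
  rw [mem_filter, Fintype.mem_piFinset] at h
  exact ⟨h.1, h.2.1, h.2.2⟩

open Classical in
theorem PhiX_sub (k : ℕ) (V U : Finset (ℤ × ℤ)) (l C N : ℕ) :
    PhiX k V U l C N ∈ (Fintype.piFinset (fun _ : Fin (k + 1) => V)).powerset := by
  rw [mem_powerset]
  exact filter_subset _ _

open Classical in
theorem formsX (k : ℕ) (ε : ℝ) (hε : 0 < ε) : ∃ z n₀ : ℕ, ∀ V : Finset (ℤ × ℤ),
    (∀ f ∈ V, 0 < f.1 ∧ IsCoprime f.1 f.2) → AdmF z V → n₀ ≤ V.card →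
    ∀ U : Finset (ℤ × ℤ), (∀ u ∈ U, 0 < u.1 ∧ IsCoprime u.1 u.2 ∧ u ∉ V) → ∀ l : ℕ, ∃ C : ℕ,
    ∀ᶠ N : ℕ in atTop, (dn k - ε) * (V.card : ℝ) ^ (k + 1) ≤ ((PhiX k V U l C N).card : ℝ) := by
  choose Kf hKf1 hKf using patRD
  obtain ⟨T, M, hT, hM⟩ := main_gen (lam := 18 / 5) (by norm_num) k (dn k)
    (dn_le k) (hcountL k) ε hε Kf
  obtain ⟨n₀, hn₀⟩ := hM Unit
  refine ⟨∑ T' ∈ range (M + 1), T' * Kf T', n₀, ?_⟩
  intro V hVpos hVadm hVn U hU l
  have hadm : ∀ T' : ℕ, T' ≤ M → ∀ H : Fin T' → Fin (Kf T') → ℤ × ℤ, (∀ g i, H g i ∈ V) →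
      ∀ p : ℕ, p.Prime → p ≤ T' * Kf T' → ∃ r : ℤ, ∀ g i,
          ¬ (p : ℤ) ∣ (H g i).1 * r + (H g i).2 := by
    intro T' hT' H hHV p hp hpT
    obtain ⟨r, hr⟩ := hVadm p (hpT.trans
      (Finset.single_le_sum (f := fun T' => T' * Kf T') (fun _ _ => Nat.zero_le _)
            (mem_range.2 (by omega)))) hp
    exact ⟨r, fun g i => hr _ (hHV g i)⟩
  have hC : ∀ T' : Fin (M + 1), ∀ H : Fin (T' : ℕ) → Fin (Kf T') → V, ∃ C : ℕ,
      ∀ᶠ N : ℕ in atTop, 1 ≤ (T' : ℕ) →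
      Function.Injective (fun z : Fin (T' : ℕ) × Fin (Kf T') => ((H z.1 z.2 : V) : ℤ × ℤ)) →
      ∃ (S : Finset (Fin (T' : ℕ))) (cc : Fin (T' : ℕ) → Fin (Kf T')),
        ((T' : ℕ) : ℝ) ≤ (18 / 5) * (S.card : ℝ) ∧
        AllP U l C N (S.image (fun g => ((H g (cc g) : V) : ℤ × ℤ))) := by
    intro T' H
    by_cases h0 : 1 ≤ (T' : ℕ)
    swap
    · exact ⟨0, Eventually.of_forall fun x h => absurd h h0⟩
    by_cases h1 : Function.Injective
        (fun z : Fin (T' : ℕ) × Fin (Kf T') => ((H z.1 z.2 : V) : ℤ × ℤ))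
    swap
    · exact ⟨0, Eventually.of_forall fun x _ h => absurd h h1⟩
    obtain ⟨C, h2⟩ := hKf T' h0 (fun g i => ((H g i : V) : ℤ × ℤ)) h1
      (fun g i => hVpos _ (H g i).2)
      (hadm T' (by have := T'.2; omega) _ (fun g i => (H g i).2)) U
      (fun u hu => ⟨(hU u hu).1, (hU u hu).2.1, fun g i h => (hU u hu).2.2 (by rw [h]; exact (H g i).2)⟩) l
    refine ⟨C, ?_⟩
    filter_upwards [h2] with x hx _ _
    exact hx
  choose CC hCC using hC
  set C : ℕ := ∑ T' : Fin (M + 1), ∑ H : Fin (T' : ℕ) → Fin (Kf T') → V, CC T' H with hCdef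
  refine ⟨C, ?_⟩
  have hCle : ∀ (T' : Fin (M + 1)) (H : Fin (T' : ℕ) → Fin (Kf T') → V), CC T' H ≤ C := by
    intro T' H
    refine le_trans ?_ (single_le_sum
      (f := fun T' : Fin (M + 1) => ∑ H : Fin (T' : ℕ) → Fin (Kf T') → V, CC T' H)
      (fun _ _ => Nat.zero_le _) (mem_univ T'))
    exact single_le_sum (f := fun H : Fin (T' : ℕ) → Fin (Kf T') → V => CC T' H)
      (fun _ _ => Nat.zero_le _) (mem_univ H)
  have hev : ∀ᶠ N : ℕ in atTop, ∀ T' : Fin (M + 1), ∀ H : Fin (T' : ℕ) → Fin (Kf T') → V,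
      1 ≤ (T' : ℕ) →
      Function.Injective (fun z : Fin (T' : ℕ) × Fin (Kf T') => ((H z.1 z.2 : V) : ℤ × ℤ)) →
      ∃ (S : Finset (Fin (T' : ℕ))) (cc : Fin (T' : ℕ) → Fin (Kf T')),
        ((T' : ℕ) : ℝ) ≤ (18 / 5) * (S.card : ℝ) ∧
        AllP U l (CC T' H) N (S.image (fun g => ((H g (cc g) : V) : ℤ × ℤ))) :=
    eventually_all.2 fun T' => eventually_all.2 fun H => hCC T' H
  filter_upwards [hev, eventually_ge_atTop 3] with N hN hN3
  have key := hn₀ (ℤ × ℤ) V (fun _ => ()) (fun F => AllP U l C N F) hVn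
    (fun F F' hF h => AllP_anti hF h) (by
      intro T' hT'1 hT'M H hHV hHinj _
      obtain ⟨S, cc, hS, hcc⟩ := hN ⟨T', by omega⟩ (fun g i => ⟨H g i, hHV g i⟩) hT'1 hHinj
      exact ⟨S, cc, hS, AllP_mono hN3 (hCle _ _) hcc⟩)
  refine key.trans (le_of_eq ?_)
  unfold PhiX
  congr 2

open Classical in
/-- one family of tuples for all lengths and all sets of further forms -/
theorem familyX {k : ℕ} {ε : ℝ} {V : Finset (ℤ × ℤ)} (Uf : ℕ → Finset (ℤ × ℤ)) (hUf : Monotone Uf)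
    (hev : ∀ l : ℕ, ∃ C : ℕ, ∀ᶠ N : ℕ in atTop,
      (dn k - ε) * (V.card : ℝ) ^ (k + 1) ≤ ((PhiX k V (Uf l) l C N).card : ℝ)) :
    ∃ 𝒢 : Finset (Fin (k + 1) → ℤ × ℤ), (∀ f ∈ 𝒢, (∀ i, f i ∈ V) ∧ Function.Injective f) ∧
      (dn k - ε) * (V.card : ℝ) ^ (k + 1) ≤ (𝒢.card : ℝ) ∧
      ∀ l : ℕ, ∃ C : ℕ, ∃ᶠ N : ℕ in atTop, ∀ f ∈ 𝒢, AllP (Uf l) l C N (univ.image f) := by
  set PS := (Fintype.piFinset (fun _ : Fin (k + 1) => V)).powerset with hPS
  choose C hev using hev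
  have hmem : ∀ l N, PhiX k V (Uf l) l (C l) N ∈ PS := fun l N => PhiX_sub k V (Uf l) l (C l) N
  have hpig : ∀ l : ℕ, ∃ b : PS, (dn k - ε) * (V.card : ℝ) ^ (k + 1) ≤
      ((b : Finset (Fin (k + 1) → ℤ × ℤ)).card : ℝ) ∧
      ∃ᶠ N : ℕ in atTop, (⟨PhiX k V (Uf l) l (C l) N, hmem l N⟩ : PS) = b := by
    intro l
    by_contra hcon
    push Not at hcon
    have h1 : ∀ b : PS, ∀ᶠ N : ℕ in atTop, (dn k - ε) * (V.card : ℝ) ^ (k + 1) ≤
        ((b : Finset (Fin (k + 1) → ℤ × ℤ)).card : ℝ) →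
        (⟨PhiX k V (Uf l) l (C l) N, hmem l N⟩ : PS) ≠ b := by
      intro b
      by_cases hb : (dn k - ε) * (V.card : ℝ) ^ (k + 1) ≤
        ((b : Finset (Fin (k + 1) → ℤ × ℤ)).card : ℝ)
      · have h2 := hcon b hb
        filter_upwards [h2] with N hN _ using hN
      · exact Eventually.of_forall fun N h => absurd h hb
    have h2 := (eventually_all.2 h1).and (hev l)
    obtain ⟨N, hN1, hN2⟩ := h2.exists
    exact hN1 ⟨PhiX k V (Uf l) l (C l) N, hmem l N⟩ hN2 rfl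
  choose b hb1 hb2 using hpig
  obtain ⟨B, hB⟩ := Finite.exists_infinite_fiber b
  have hBinf : (b ⁻¹' {B}).Infinite := Set.infinite_coe_iff.1 hB
  obtain ⟨j0, hj0⟩ := hBinf.nonempty
  have hj0' : b j0 = B := hj0
  have hval : ∀ l N, b l = B → (⟨PhiX k V (Uf l) l (C l) N, hmem l N⟩ : PS) = b l →
      (B : Finset (Fin (k + 1) → ℤ × ℤ)) = PhiX k V (Uf l) l (C l) N := by
    intro l N h1 h2
    rw [h1] at h2
    exact (congrArg Subtype.val h2).symm
  refine ⟨B, fun f hf => ?_, by rw [← hj0']; exact hb1 j0, fun l => ?_⟩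
  · obtain ⟨N, hN⟩ := (hb2 j0).exists
    rw [hval j0 N hj0' hN] at hf
    have h2 := PhiX_mem hf
    exact ⟨h2.1, h2.2.1⟩
  · obtain ⟨j, hj, hjl⟩ := hBinf.exists_gt l
    have hj' : b j = B := hj
    refine ⟨C j, (hb2 j).mono ?_⟩
    intro N hN f hf
    rw [hval j N hj' hN] at hf
    exact AllP_len (hUf hjl.le) hjl.le (PhiX_mem hf).2.2

open Classical in
/-- **all patterns along narrow progressions of any length, any further forms being composite** -/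
theorem finX (k : ℕ) (ε : ℝ) (hε : 0 < ε) : ∃ z n₀ : ℕ,
    ∀ V : Finset (ℤ × ℤ), (∀ f ∈ V, 0 < f.1 ∧ IsCoprime f.1 f.2) → AdmF z V → n₀ ≤ V.card →
      ∃ G : Finset (Fin (k + 1) → ℤ × ℤ),
        (∀ f ∈ G, (∀ i, f i ∈ V) ∧ Function.Injective f) ∧
        (dn k - ε) * (V.card : ℝ) ^ (k + 1) ≤ (G.card : ℝ) ∧
        ∀ (l : ℕ) (U : Finset (ℤ × ℤ)), (∀ u ∈ U, 0 < u.1 ∧ IsCoprime u.1 u.2 ∧ u ∉ V) →
          ∃ C : ℕ, ∃ᶠ N : ℕ in atTop, ∀ f ∈ G, AllP U l C N (univ.image f) := by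
  obtain ⟨z, n₀, h⟩ := formsX k ε hε
  refine ⟨z, n₀, fun V hV hadm hn => ?_⟩
  set Uf : ℕ → Finset (ℤ × ℤ) := fun l =>
    ((Icc (-(l : ℤ)) l) ×ˢ (Icc (-(l : ℤ)) l)).filter (fun u => 0 < u.1 ∧ IsCoprime u.1 u.2 ∧ u ∉ V) with hUf
  have hmono : Monotone Uf := by
    intro l l' hl u hu
    simp only [hUf, mem_filter, mem_product, mem_Icc] at hu ⊢
    have : (l : ℤ) ≤ l' := by exact_mod_cast hl
    exact ⟨⟨⟨by linarith [hu.1.1.1], by linarith [hu.1.1.2]⟩, ⟨by linarith [hu.1.2.1], by linarith [hu.1.2.2]⟩⟩, hu.2⟩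
  obtain ⟨G, hG1, hG2, hG3⟩ := familyX (k := k) (ε := ε) (V := V) Uf hmono
    (fun l => h V hV hadm hn (Uf l) (fun u hu => (mem_filter.1 hu).2) l)
  refine ⟨G, hG1, hG2, fun l U hU => ?_⟩
  obtain ⟨R, hR⟩ : ∃ R : ℕ, ∀ u ∈ U, u.1.natAbs ≤ R ∧ u.2.natAbs ≤ R := by
    refine ⟨∑ u ∈ U, (u.1.natAbs + u.2.natAbs), fun u hu => ?_⟩
    have := single_le_sum (f := fun u : ℤ × ℤ => u.1.natAbs + u.2.natAbs) (fun _ _ => Nat.zero_le _) hu
    omega
  obtain ⟨C, hC⟩ := hG3 (max l R)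
  refine ⟨C, hC.mono fun N hN f hf => AllP_len ?_ (le_max_left _ _) (hN f hf)⟩
  intro u hu
  have h1 := hR u hu
  rw [hUf, mem_filter, mem_product, mem_Icc, mem_Icc]
  refine ⟨⟨⟨?_, ?_⟩, ?_, ?_⟩, hU u hu⟩ <;> omega

end Pool.Agent.Y827.HN
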