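import Mathlib
import Pool.Agent.Y827.HN.Pat

/-! Project HN: tuples of shifts: all patterns, narrow progressions, residue classes, no other primes nearby. -/

set_option autoImplicit false

namespace Pool.Agent.Y827.HN

open Finset Filter Topology
open Pool.Agent.Y827.LS
open Pool.Agent.Y827.GS
open Pool.Agent.Y827.RO

open Classical in
/-- the number of the `1 ≤ n ≤ N` such that for each `m = n, n + d, ..., n + (l - 1) d`: `m ≡ b` modulo `q`,
exactly those `m + a i` with `i ∈ J` are prime and every prime in `[m - R, m + R]` is in `m + V` -/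
noncomputable def cntP {k : ℕ} (V : Finset ℕ) (a : Fin (k + 1) → ℕ) (J : Finset (Fin (k + 1)))
    (q b R l d N : ℕ) : ℕ :=
  ((Icc 1 N).filter (fun n : ℕ => ∀ j < l, n + j * d ≡ b [MOD q] ∧
    (∀ i, (n + j * d + a i).Prime ↔ i ∈ J) ∧
    ∀ x : ℕ, x.Prime → n + j * d ≤ x + R → x ≤ n + j * d + R → ∃ v ∈ V, x = n + j * d + v)).card

/-- the form of a shift -/
def phi (q b v : ℕ) : ℤ × ℤ := ((q : ℤ), ((b + v : ℕ) : ℤ))

theorem phi_inj (q b : ℕ) : Function.Injective (phi q b) := by
  intro v v' hv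
  have := (Prod.ext_iff.1 hv).2
  simp only [phi] at this
  have h1 : b + v = b + v' := by exact_mod_cast this
  omega

open Classical in
/-- the forms of the other shifts up to `R` -/
noncomputable def UR (q b R : ℕ) (V : Finset ℕ) : Finset (ℤ × ℤ) :=
  ((Icc (-(R : ℤ)) R).image (fun t : ℤ => ((q : ℤ), (b : ℤ) + t))).filter
    (fun u => IsCoprime u.1 u.2 ∧ u ∉ V.image (phi q b))

open Classical in
theorem conv {k q b R l C N N' : ℕ} {V : Finset ℕ} {a : Fin (k + 1) → ℕ} (hq : 0 < q)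
    (hainj : Function.Injective a)
    (h : AllP (UR q b R V) (max l (R + 2)) C N' (univ.image (fun i => phi q b (a i))))
    (hN1 : q * N' + b ≤ N) (hN2 : N ≤ 2 * (q * N')) (hN3 : 3 ≤ N') (hNl : ((2 * q : ℕ) : ℝ) ≤ Real.log N)
    (J : Finset (Fin (k + 1))) :
    ∃ d : ℕ, 1 ≤ d ∧ (d : ℝ) ≤ (Real.log N) ^ (C + 1) ∧
      (N : ℝ) / (Real.log N) ^ (C + 1) ≤ (cntP V a J q b R l d N : ℝ) := by
  have hφ := phi_inj q b
  obtain ⟨d, hd1, hd2, hd3⟩ := h (J.image (fun i => phi q b (a i))) (by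
    intro f hf
    obtain ⟨i, _, rfl⟩ := mem_image.1 hf
    exact mem_image.2 ⟨i, mem_univ _, rfl⟩)
  have hL1 := log_ge_one hN3
  have hN'0 : (0 : ℝ) < N' := by exact_mod_cast (by omega : 0 < N')
  have hqr : (1 : ℝ) ≤ q := by exact_mod_cast hq
  have hle : N' ≤ N := by
    have : 1 * N' ≤ q * N' := Nat.mul_le_mul_right _ hq
    omega
  have hll : Real.log N' ≤ Real.log N := Real.log_le_log hN'0 (by exact_mod_cast hle)
  have hLN : 1 ≤ Real.log N := hL1.trans hll
  push_cast at hNl
  refine ⟨q * d, Nat.mul_pos hq hd1, ?_, ?_⟩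
  · push_cast
    have h1 : (d : ℝ) ≤ Real.log N ^ C := hd2.trans (pow_le_pow_left₀ (by linarith) hll C)
    rw [pow_succ, mul_comm]
    exact mul_le_mul h1 (by linarith) (by linarith) (by positivity)
  · have hcnt : (cntX (J.image (fun i => phi q b (a i)))
        ((univ.image (fun i => phi q b (a i)) \ J.image (fun i => phi q b (a i))) ∪ UR q b R V)
          (max l (R + 2)) d N' : ℝ) ≤ (cntP V a J q b R l (q * d) N : ℝ) := by
      rw [Nat.cast_le]
      unfold cntX cntP
      rw [← card_image_of_injective (f := fun m : ℕ => q * m + b) _ (by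
        intro m m' hm
        have h1 : q * m + b = q * m' + b := hm
        exact Nat.eq_of_mul_eq_mul_left hq (by omega))]
      apply card_le_card
      intro n hn
      obtain ⟨m, hm, rfl⟩ := mem_image.1 hn
      obtain ⟨hm1, hm2⟩ := mem_filter.1 hm
      rw [mem_Icc] at hm1
      have hmR : R + 3 ≤ m := by
        have := le_max_right l (R + 2)
        omega
      refine mem_filter.2 ⟨mem_Icc.2 ⟨?_, ?_⟩, fun j hj => ⟨?_, fun i => ?_, ?_⟩⟩
      · have : 1 * m ≤ q * m := Nat.mul_le_mul_right _ hq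
        omega
      · have : q * m ≤ q * N' := Nat.mul_le_mul_left _ hm1.2
        omega
      · have e1 : q * m + b + j * (q * d) = b + q * (m + j * d) := by ring
        rw [e1]
        exact (Nat.modEq_iff_dvd' (by omega)).2 (by simp) |>.symm
      · have hjl : j < max l (R + 2) := lt_of_lt_of_le hj (le_max_left _ _)
        obtain ⟨g1, g2⟩ := hm2 j hjl
        have e2 : ∀ i, (phi q b (a i)).1 * ((m + j * d : ℕ) : ℤ) + (phi q b (a i)).2 =
            ((q * m + b + j * (q * d) + a i : ℕ) : ℤ) := by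
          intro i
          simp only [phi]
          push_cast
          ring
        constructor
        · intro hpr
          by_contra hi
          have h1 := g2 (phi q b (a i)) (mem_union_left _ (mem_sdiff.2 ⟨mem_image.2 ⟨i, mem_univ _, rfl⟩, by
            intro h2
            obtain ⟨i', hi', h3⟩ := mem_image.1 h2
            exact hi (by rwa [hainj (hφ h3)] at hi')⟩))
          rw [e2, Int.toNat_natCast] at h1
          exact h1 hpr
        · intro hi
          have h1 := g1 (phi q b (a i)) (mem_image.2 ⟨i, hi, rfl⟩)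
          rw [e2, Int.toNat_natCast] at h1
          exact h1
      · intro x hx hx1 hx2
        by_contra hcon
        push Not at hcon
        have hjl : j < max l (R + 2) := lt_of_lt_of_le hj (le_max_left _ _)
        obtain ⟨g1, g2⟩ := hm2 j hjl
        -- the distance
        obtain ⟨M, hM⟩ : ∃ M, M = m + j * d := ⟨_, rfl⟩
        have hMm : R + 3 ≤ M := by omega
        have eM : q * m + b + j * (q * d) = q * M + b := by rw [hM]; ring
        rw [eM] at hx1 hx2 hcon
        obtain ⟨t, htd⟩ : ∃ t : ℤ, t = (x : ℤ) - (q * M + b : ℕ) := ⟨_, rfl⟩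
        have ht1 : -(R : ℤ) ≤ t := by omega
        have ht2 : t ≤ R := by omega
        have hval : (q : ℤ) * ((m + j * d : ℕ) : ℤ) + ((b : ℤ) + t) = x := by
          rw [← hM, htd]
          push_cast
          ring
        by_cases hc : IsCoprime (q : ℤ) ((b : ℤ) + t)
        · have hUm : ((q : ℤ), (b : ℤ) + t) ∈ UR q b R V := by
            unfold UR
            rw [mem_filter]
            refine ⟨mem_image.2 ⟨t, mem_Icc.2 ⟨ht1, ht2⟩, rfl⟩, hc, fun hV => ?_⟩
            obtain ⟨v, hv, hve⟩ := mem_image.1 hV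
            have h1 := (Prod.ext_iff.1 hve).2
            simp only [phi] at h1
            push_cast at h1
            have h2 : (v : ℤ) = t := by linarith
            apply hcon v hv
            omega
          have h1 := g2 _ (mem_union_right _ hUm)
          apply h1
          show ((q : ℤ) * ((m + j * d : ℕ) : ℤ) + ((b : ℤ) + t)).toNat.Prime
          rw [hval, Int.toNat_natCast]
          exact hx
        · rw [Int.isCoprime_iff_gcd_eq_one] at hc
          obtain ⟨p, hp, hpd⟩ := Nat.exists_prime_and_dvd hc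
          have h1 : (p : ℤ) ∣ (q : ℤ) := (Int.natCast_dvd_natCast.2 hpd).trans (Int.gcd_dvd_left _ _)
          have h2 : (p : ℤ) ∣ (b : ℤ) + t := (Int.natCast_dvd_natCast.2 hpd).trans (Int.gcd_dvd_right _ _)
          have h3 : (p : ℤ) ∣ (x : ℤ) := by
            rw [← hval]
            exact dvd_add (h1.mul_right _) h2
          have h4 : p ∣ x := by exact_mod_cast h3
          have h5 : p = x := (Nat.prime_dvd_prime_iff_eq hp hx).1 h4
          have h6 : p ≤ q := Nat.le_of_dvd hq (by exact_mod_cast h1)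
          have h7 : q * (R + 3) ≤ q * M := Nat.mul_le_mul_left _ hMm
          have h8 : q * (R + 3) = q * R + 3 * q := by ring
          have h9 : 1 * R ≤ q * R := Nat.mul_le_mul_right _ hq
          omega
    refine le_trans ?_ (hd3.trans hcnt)
    have h2 : (N : ℝ) ≤ Real.log N * N' := by
      have h3 : (N : ℝ) ≤ 2 * (q * N') := by exact_mod_cast hN2
      nlinarith
    calc (N : ℝ) / Real.log N ^ (C + 1) ≤ (Real.log N * N') / Real.log N ^ (C + 1) := by gcongr
      _ = (N' : ℝ) / Real.log N ^ C := by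
          rw [pow_succ]
          field_simp
      _ ≤ (N' : ℝ) / Real.log N' ^ C :=
          div_le_div_of_nonneg_left hN'0.le (by positivity) (pow_le_pow_left₀ (by linarith) hll C)

open Classical in
theorem finP (k : ℕ) (ε : ℝ) (hε : 0 < ε) : ∃ z n₀ : ℕ,
    ∀ (q b : ℕ) (V : Finset ℕ), 0 < q → (∀ v ∈ V, Nat.Coprime (b + v) q) →
      (∀ p : ℕ, p ≤ z → p.Prime → ¬ p ∣ q → ∃ r : ℕ, ∀ v ∈ V, ¬ v ≡ r [MOD p]) → n₀ ≤ V.card →
      (∃ G : Finset (Fin (k + 1) → ℕ),
        (∀ a ∈ G, (∀ i, a i ∈ V) ∧ Function.Injective a) ∧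
        (dn k - ε) * (V.card : ℝ) ^ (k + 1) ≤ (G.card : ℝ) ∧
        ∀ l R : ℕ, ∃ C : ℕ, ∃ᶠ N : ℕ in atTop, ∀ a ∈ G, ∀ J : Finset (Fin (k + 1)), ∃ d : ℕ, 1 ≤ d ∧
          (d : ℝ) ≤ (Real.log N) ^ C ∧ (N : ℝ) / (Real.log N) ^ C ≤ (cntP V a J q b R l d N : ℝ)) ∧
      ∀ l R : ℕ, ∃ C : ℕ, ∀ᶠ N : ℕ in atTop, ∃ G : Finset (Fin (k + 1) → ℕ),
        (∀ a ∈ G, (∀ i, a i ∈ V) ∧ Function.Injective a) ∧
        (dn k - ε) * (V.card : ℝ) ^ (k + 1) ≤ (G.card : ℝ) ∧
        ∀ a ∈ G, ∀ J : Finset (Fin (k + 1)), ∃ d : ℕ, 1 ≤ d ∧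
          (d : ℝ) ≤ (Real.log N) ^ C ∧ (N : ℝ) / (Real.log N) ^ C ≤ (cntP V a J q b R l d N : ℝ) := by
  obtain ⟨z₁, n₁, h₁⟩ := finX k ε hε
  obtain ⟨z₂, n₂, h₂⟩ := formsX k ε hε
  refine ⟨max z₁ z₂, max n₁ n₂, fun q b V hq hcop hadm hn => ?_⟩
  have hqz : (0 : ℤ) < (q : ℤ) := by exact_mod_cast hq
  have hφ := phi_inj q b
  have hpos : ∀ f ∈ V.image (phi q b), 0 < f.1 ∧ IsCoprime f.1 f.2 := by
    intro f hf
    obtain ⟨v, hv, rfl⟩ := mem_image.1 hf
    refine ⟨?_, ?_⟩
    · show (0 : ℤ) < (q : ℤ)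
      exact_mod_cast hq
    · exact (Nat.isCoprime_iff_coprime.2 (hcop v hv)).symm
  have hAdm : AdmF (max z₁ z₂) (V.image (phi q b)) := by
    intro p hpz hp
    by_cases hpq : p ∣ q
    · refine ⟨0, fun f hf hd => ?_⟩
      obtain ⟨v, hv, rfl⟩ := mem_image.1 hf
      simp only [phi, mul_zero, zero_add] at hd
      have h1 : p ∣ b + v := by exact_mod_cast hd
      exact hp.one_lt.ne' (Nat.eq_one_of_dvd_coprimes (hcop v hv) h1 hpq)
    · obtain ⟨r, hr⟩ := hadm p hpz hp hpq
      have hcpq : IsCoprime (q : ℤ) (p : ℤ) :=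
        Nat.isCoprime_iff_coprime.2 ((Nat.Prime.coprime_iff_not_dvd hp).2 hpq).symm
      obtain ⟨u, w, huw⟩ := hcpq
      -- q u + p w = 1 ; choose m = - u (b + r)
      refine ⟨-(u * ((b : ℤ) + r)), fun f hf hd => ?_⟩
      obtain ⟨v, hv, rfl⟩ := mem_image.1 hf
      simp only [phi] at hd
      push_cast at hd
      apply hr v hv
      have h1 : (q : ℤ) * -(u * ((b : ℤ) + r)) + ((b : ℤ) + v) =
          (v - r) + p * (w * (b + r)) := by
        linear_combination (-((b : ℤ) + r)) * huw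
      rw [h1] at hd
      have h2 : (p : ℤ) ∣ (v : ℤ) - r := (dvd_add_left (dvd_mul_right _ _)).1 hd
      exact (Int.natCast_modEq_iff.1 (Int.modEq_iff_dvd.2 h2)).symm
  have hcard : (V.image (phi q b)).card = V.card := card_shift V (phi q b) hφ
  have hU : ∀ R, ∀ u ∈ UR q b R V, 0 < u.1 ∧ IsCoprime u.1 u.2 ∧ u ∉ V.image (phi q b) := by
    intro R u hu
    unfold UR at hu
    obtain ⟨h1, h2⟩ := mem_filter.1 hu
    obtain ⟨t, -, rfl⟩ := mem_image.1 h1
    exact ⟨hqz, h2.1, h2.2⟩
  refine ⟨?_, ?_⟩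
  · obtain ⟨G, hG1, hG2, hG3⟩ := h₁ (V.image (phi q b)) hpos
      (fun p hp => hAdm p (hp.trans (le_max_left _ _))) (by rw [hcard]; exact (le_max_left _ _).trans hn)
    obtain ⟨G', hG'1, hG'2⟩ := transfer V (phi q b) G hG1
    refine ⟨G', fun a ha => ⟨(hG'1 a ha).1, (hG'1 a ha).2.1⟩, ?_, ?_⟩
    · rw [hcard] at hG2
      exact hG2.trans (by exact_mod_cast hG'2)
    · intro l R
      obtain ⟨C, hC⟩ := hG3 (max l (R + 2)) (UR q b R V) (hU R)
      refine ⟨C + 1, ?_⟩
      have ht : Tendsto (fun m : ℕ => q * m + b) atTop atTop := by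
        apply tendsto_atTop_mono (f := fun m : ℕ => m) _ tendsto_id
        intro m
        have : 1 * m ≤ q * m := Nat.mul_le_mul_right _ hq
        show m ≤ q * m + b
        omega
      refine ht.frequently ?_
      refine (hC.and_eventually (((log_ev (2 * q)).and (eventually_ge_atTop 3)).and
        (eventually_ge_atTop (b + 1)))).mono ?_
      rintro N ⟨hN, ⟨hNl, hN3⟩, hNb⟩ a ha J
      have hNr : (0 : ℝ) < N := by exact_mod_cast (by omega : 0 < N)
      have hle : 1 * N ≤ q * N := Nat.mul_le_mul_right _ hq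
      have hll : Real.log N ≤ Real.log ((q * N + b : ℕ) : ℝ) :=
        Real.log_le_log hNr (by exact_mod_cast (by omega : N ≤ q * N + b))
      exact conv hq (hG'1 a ha).2.1 (hN _ (hG'1 a ha).2.2) le_rfl (by omega) hN3
        (by push_cast at hll ⊢; exact hNl.trans hll) J
  · intro l R
    obtain ⟨C, hC⟩ := h₂ (V.image (phi q b)) hpos (fun p hp => hAdm p (hp.trans (le_max_right _ _)))
      (by rw [hcard]; exact (le_max_right _ _).trans hn) (UR q b R V) (hU R) (max l (R + 2))
    refine ⟨C + 1, ?_⟩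
    have ht : Tendsto (fun N : ℕ => (N - b) / q) atTop atTop := by
      rw [tendsto_atTop_atTop]
      intro c
      refine ⟨q * c + b, fun N hN => ?_⟩
      rw [Nat.le_div_iff_mul_le hq]
      have : c * q = q * c := mul_comm _ _
      omega
    filter_upwards [ht.eventually hC, ht.eventually (eventually_ge_atTop 3), log_ev (2 * q),
      eventually_ge_atTop (2 * (b + q))] with N hN hN3 hNl hNr
    obtain ⟨N', hN'⟩ : ∃ N', N' = (N - b) / q := ⟨_, rfl⟩
    rw [← hN'] at hN hN3
    have hQN : q * N' ≤ N - b := by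
      rw [hN']
      exact Nat.mul_div_le _ _
    have hQN2 : N - b < q * N' + q := by
      rw [hN']
      have := Nat.lt_mul_div_succ (N - b) hq
      rw [Nat.mul_add, Nat.mul_one] at this
      exact this
    obtain ⟨G', hG'1, hG'2⟩ := transfer V (phi q b) (PhiX k (V.image (phi q b)) (UR q b R V) (max l (R + 2)) C N')
      (fun f hf => ⟨(PhiX_mem hf).1, (PhiX_mem hf).2.1⟩)
    refine ⟨G', fun a ha => ⟨(hG'1 a ha).1, (hG'1 a ha).2.1⟩, ?_, fun a ha J => ?_⟩
    · rw [hcard] at hN
      exact hN.trans (by exact_mod_cast hG'2)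
    · exact conv hq (hG'1 a ha).2.1 (PhiX_mem (hG'1 a ha).2.2).2.2 (by omega) (by omega) hN3
        (by push_cast; exact hNl) J

end Pool.Agent.Y827.HN
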